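import Pool.Agent.Helper85.MU.Stmts

/-!
# Stable subspaces as pairs of matrices (`IsSub`), and consequences of irreducibility

* `isSub_of_stable`: a stable subspace `U` gives `B`, `A` with `IsSub r B A`, the columns of `B` span `U`
  (`LinearMap.range B.mulVecLin = U`) and `m = finrank U`.
* `irr_stable`: a stable subspace of an irreducible representation is `⊥` or `⊤`.
* `irr_span`: a nonzero vector generates.
* `irr_det`: there are `g j` such that the matrix with columns `r (g j) v` is invertible.
-/

set_option autoImplicit false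

namespace MU

/-- a stable subspace gives `IsSub` -/
theorem isSub_of_stable {G K : Type} [Group G] [Field K] {n : ℕ}
    (r : G →* Matrix (Fin n) (Fin n) K) (U : Submodule K (Fin n → K))
    (hU : ∀ g, ∀ v ∈ U, (r g).mulVec v ∈ U) :
    ∃ (B : Matrix (Fin n) (Fin (Module.finrank K U)) K)
      (A : G → Matrix (Fin (Module.finrank K U)) (Fin (Module.finrank K U)) K),
      IsSub r B A ∧ LinearMap.range B.mulVecLin = U := by
  classical
  let b := Module.finBasis K U
  let f : (Fin (Module.finrank K U) → K) →ₗ[K] (Fin n → K) :=
    U.subtype.comp b.equivFun.symm.toLinearMap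
  have hinj : Function.Injective f :=
    (Submodule.injective_subtype U).comp b.equivFun.symm.injective
  have hker : LinearMap.ker f = ⊥ := LinearMap.ker_eq_bot.mpr hinj
  obtain ⟨f', hf'⟩ := LinearMap.exists_leftInverse_of_injective f hker
  let R : G → U →ₗ[K] U := fun g => (Matrix.mulVecLin (r g)).restrict (hU g)
  let R' : G → ((Fin (Module.finrank K U) → K) →ₗ[K] (Fin (Module.finrank K U) → K)) := fun g =>
    b.equivFun.toLinearMap.comp ((R g).comp b.equivFun.symm.toLinearMap)
  refine ⟨LinearMap.toMatrix' f, fun g => LinearMap.toMatrix' (R' g),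
    ⟨⟨LinearMap.toMatrix' f', ?_⟩, ?_⟩, ?_⟩
  · rw [← LinearMap.toMatrix'_comp, hf', LinearMap.toMatrix'_id]
  · intro g
    have h1 : (Matrix.toLin' (r g)).comp f = f.comp (R' g) := by
      apply LinearMap.ext
      intro x
      simp only [f, R', LinearMap.comp_apply, LinearEquiv.coe_coe, LinearEquiv.symm_apply_apply]
      rfl
    have h2 := congrArg LinearMap.toMatrix' h1
    rw [LinearMap.toMatrix'_comp, LinearMap.toMatrix'_comp, LinearMap.toMatrix'_toLin'] at h2
    exact h2
  · have h3 : (LinearMap.toMatrix' f).mulVecLin = f := by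
      rw [← Matrix.toLin'_apply', Matrix.toLin'_toMatrix']
    rw [h3]
    apply le_antisymm
    · rintro _ ⟨x, rfl⟩
      exact (b.equivFun.symm x).2
    · intro v hv
      refine ⟨b.equivFun ⟨v, hv⟩, ?_⟩
      simp only [f, LinearMap.comp_apply, LinearEquiv.coe_coe, LinearEquiv.symm_apply_apply]
      rfl

/-- a stable subspace of an irreducible representation is trivial -/
theorem irr_stable {G K : Type} [Group G] [Field K] {n : ℕ}
    {r : G →* Matrix (Fin n) (Fin n) K} (hr : IsIrr r) (U : Submodule K (Fin n → K))
    (hU : ∀ g, ∀ v ∈ U, (r g).mulVec v ∈ U) : U = ⊥ ∨ U = ⊤ := by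
  obtain ⟨B, A, hBA, -⟩ := isSub_of_stable r U hU
  rcases hr _ B A hBA with h | h
  · left
    exact Submodule.finrank_eq_zero.mp h
  · right
    apply Submodule.eq_top_of_finrank_eq
    rw [h, Module.finrank_fin_fun]

/-- a nonzero vector generates an irreducible representation -/
theorem irr_span {G K : Type} [Group G] [Field K] {n : ℕ}
    {r : G →* Matrix (Fin n) (Fin n) K} (hr : IsIrr r) (v : Fin n → K) (hv : v ≠ 0) :
    Submodule.span K (Set.range fun g => (r g).mulVec v) = ⊤ := by
  rcases irr_stable hr (Submodule.span K (Set.range fun g => (r g).mulVec v)) (by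
    intro g x hx
    induction hx using Submodule.span_induction with
    | mem x hx =>
      obtain ⟨g', rfl⟩ := hx
      apply Submodule.subset_span
      refine ⟨g * g', ?_⟩
      simp only [map_mul, Matrix.mulVec_mulVec]
    | zero => rw [Matrix.mulVec_zero]; exact Submodule.zero_mem _
    | add x y _ _ hx hy => rw [Matrix.mulVec_add]; exact Submodule.add_mem _ hx hy
    | smul a x _ hx => rw [Matrix.mulVec_smul]; exact Submodule.smul_mem _ a hx) with h | h
  · exfalso
    apply hv
    have h1 : (r 1).mulVec v ∈ Submodule.span K (Set.range fun g => (r g).mulVec v) :=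
      Submodule.subset_span ⟨1, rfl⟩
    rw [h, Submodule.mem_bot, map_one, Matrix.one_mulVec] at h1
    exact h1
  · exact h

/-- a generating set contains the columns of an invertible matrix -/
theorem det_ne_zero_of_span {K ι : Type} [Field K] {n : ℕ} (f : ι → Fin n → K)
    (hf : Submodule.span K (Set.range f) = ⊤) :
    ∃ j : Fin n → ι, (Matrix.of fun a b => f (j b) a).det ≠ 0 := by
  classical
  obtain ⟨κ, a, ha, hspan, hli⟩ := exists_linearIndependent' K f
  have hb : ⊤ ≤ Submodule.span K (Set.range (f ∘ a)) := by rw [hspan, hf]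
  let b := Module.Basis.mk hli hb
  have : Finite κ := Module.Finite.finite_basis b
  have : Fintype κ := Fintype.ofFinite κ
  have hcard : Fintype.card κ = n := by
    rw [← Module.finrank_eq_card_basis b, Module.finrank_fin_fun]
  let e : Fin n ≃ κ := (Fintype.equivFinOfCardEq hcard).symm
  refine ⟨fun i => a (e i), ?_⟩
  have hli' : LinearIndependent K (fun i : Fin n => f (a (e i))) := hli.comp e e.injective
  have h2 : IsUnit (Matrix.of fun a' b' => f (a (e b')) a' : Matrix (Fin n) (Fin n) K) := by
    rw [← Matrix.linearIndependent_cols_iff_isUnit]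
    exact hli'
  rw [Matrix.isUnit_iff_isUnit_det] at h2
  exact h2.ne_zero

/-- there are group elements such that the vectors `r (g j) v` are a basis -/
theorem irr_det {G K : Type} [Group G] [Field K] {n : ℕ}
    {r : G →* Matrix (Fin n) (Fin n) K} (hr : IsIrr r) (v : Fin n → K) (hv : v ≠ 0) :
    ∃ g : Fin n → G, (Matrix.of fun a b => (r (g b)).mulVec v a).det ≠ 0 :=
  det_ne_zero_of_span (fun g => (r g).mulVec v) (irr_span hr v hv)

end MU
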