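import Pool.Agent.Helper85.MU.Stmts

/-!
# Module INV: an involution in the absolute Galois group of a number field of odd degree
-/

set_option autoImplicit false

open NumberField

namespace MU

theorem st_INV : ST_INV := by
  intro F _ _ hodd
  classical
  -- a real place
  have h1 := NumberField.InfinitePlace.card_add_two_mul_card_eq_rank F
  have h2 : NumberField.InfinitePlace.nrRealPlaces F ≠ 0 := by
    intro h0
    rw [h0] at h1
    rw [← h1] at hodd
    exact absurd hodd (by
      rw [Nat.not_odd_iff_even]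
      exact ⟨_, by ring⟩)
  have h3 : Nonempty {v : NumberField.InfinitePlace F // v.IsReal} := by
    by_contra hcon
    rw [not_nonempty_iff] at hcon
    exact h2 (by
      unfold NumberField.InfinitePlace.nrRealPlaces
      exact Fintype.card_eq_zero)
  obtain ⟨⟨v, hv⟩⟩ := h3
  let φ : F →+* ℝ := NumberField.InfinitePlace.embedding_of_isReal hv
  let a1 : Algebra F ℝ := φ.toAlgebra
  let a2 : Algebra F ℂ := ((Complex.ofRealHom).comp φ).toAlgebra
  have t1 : IsScalarTower F ℝ ℂ := IsScalarTower.of_algebraMap_eq (fun x => rfl)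
  let ι : AlgebraicClosure F →ₐ[F] ℂ := IsAlgClosed.lift
  let a3 : Algebra (AlgebraicClosure F) ℂ := ι.toRingHom.toAlgebra
  have t2 : IsScalarTower F (AlgebraicClosure F) ℂ :=
    IsScalarTower.of_algebraMap_eq (fun x => (ι.commutes x).symm)
  let χ : ℂ ≃ₐ[F] ℂ := Complex.conjAe.restrictScalars F
  let c : Gal F := χ.restrictNormal (AlgebraicClosure F)
  have hc : ∀ x : AlgebraicClosure F, ι (c x) = (starRingEnd ℂ) (ι x) := fun x =>
    AlgEquiv.restrictNormal_commutes χ (AlgebraicClosure F) x
  refine ⟨c, ?_, ?_⟩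
  · intro h
    obtain ⟨z, hz⟩ := IsAlgClosed.exists_pow_nat_eq (-1 : AlgebraicClosure F) (n := 2) two_pos
    have h5 : (starRingEnd ℂ) (ι z) = ι z := by
      rw [← hc z, h]
      rfl
    have h6 : (ι z) ^ 2 = -1 := by
      rw [← map_pow, hz, map_neg, map_one]
    rw [Complex.conj_eq_iff_real] at h5
    obtain ⟨r, hr⟩ := h5
    rw [hr] at h6
    have h7 : r ^ 2 = -1 := by exact_mod_cast h6
    nlinarith [sq_nonneg r]
  · apply AlgEquiv.ext
    intro x
    apply ι.toRingHom.injective
    change ι (c (c x)) = ι x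
    rw [hc, hc]
    exact Complex.conj_conj _

end MU
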