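import Pool.Agent.Helper43.MU.Sub

/-!
# Module LAT: finitely many classes of lattices in an irreducible `l`-adic representation
-/

set_option autoImplicit false

namespace MU

section LAT

variable {l : ℕ} [Fact l.Prime]

theorem lat_dvd {x y : ℤ_[l]} (hx : x ≠ 0) (h : ‖y‖ ≤ ‖x‖) : ∃ z : ℤ_[l], y = x * z := by
  have hx' : (x : ℚ_[l]) ≠ 0 := by
    intro h0
    exact hx (PadicInt.ext (by simpa using h0))
  have hxn : 0 < ‖(x : ℚ_[l])‖ := norm_pos_iff.mpr hx'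
  refine ⟨⟨(y : ℚ_[l]) / x, ?_⟩, ?_⟩
  · rw [norm_div, div_le_one hxn]
    exact h
  · apply PadicInt.ext
    change (y : ℚ_[l]) = (x : ℚ_[l]) * ((y : ℚ_[l]) / (x : ℚ_[l]))
    field_simp

/-- the matrix with columns `r (g b) v` -/
noncomputable def latM {G : Type} [Group G] {n : ℕ}
    (r : G →* Matrix.GeneralLinearGroup (Fin n) ℤ_[l]) (g : Fin n → G) (v : Fin n → ℤ_[l]) :
    Matrix (Fin n) (Fin n) ℤ_[l] :=
  Matrix.of fun a b => ((r (g b) : Matrix (Fin n) (Fin n) ℤ_[l]).mulVec v) a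

theorem lat_rat_apply {G : Type} [Group G] {n : ℕ}
    (r : G →* Matrix.GeneralLinearGroup (Fin n) ℤ_[l]) (g : G) :
    rat r g = (algebraMap ℤ_[l] ℚ_[l]).mapMatrix (r g : Matrix (Fin n) (Fin n) ℤ_[l]) := rfl

theorem lat_cont {G : Type} [Group G] {n : ℕ}
    (r : G →* Matrix.GeneralLinearGroup (Fin n) ℤ_[l]) (g : Fin n → G) :
    Continuous fun v : Fin n → ℤ_[l] => ‖(latM r g v).det‖ := by
  apply Continuous.norm
  apply Continuous.matrix_det
  apply continuous_matrix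
  intro a b
  change Continuous fun v : Fin n → ℤ_[l] =>
    ((r (g b) : Matrix (Fin n) (Fin n) ℤ_[l]).mulVec v) a
  exact (continuous_apply a).comp (Continuous.matrix_mulVec continuous_const continuous_id)

theorem lat_bound {G : Type} [Group G] {n : ℕ}
    (r : G →* Matrix.GeneralLinearGroup (Fin n) ℤ_[l]) (hr : IsIrr (rat r)) :
    ∃ m : ℕ, ∀ v : Fin n → ℤ_[l], (∃ i, ‖v i‖ = 1) →
      ∃ g : Fin n → G, ((l : ℝ)⁻¹) ^ m < ‖(latM r g v).det‖ := by
  have hl1 : (1 : ℝ) < l := by exact_mod_cast (Fact.out : l.Prime).one_lt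
  have hinv : (l : ℝ)⁻¹ < 1 := inv_lt_one_of_one_lt₀ hl1
  have hinv0 : 0 < (l : ℝ)⁻¹ := inv_pos.mpr (by linarith)
  let U : ℕ → Set (Fin n → ℤ_[l]) := fun m =>
    ⋃ g : Fin n → G, {v | ((l : ℝ)⁻¹) ^ m < ‖(latM r g v).det‖}
  have hP : IsCompact {v : Fin n → ℤ_[l] | ∃ i, ‖v i‖ = 1} := by
    apply IsClosed.isCompact
    have h1 : {v : Fin n → ℤ_[l] | ∃ i, ‖v i‖ = 1} = ⋃ i, {v | ‖v i‖ = 1} := by
      ext v; simp
    rw [h1]
    apply isClosed_iUnion_of_finite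
    intro i
    exact isClosed_eq (continuous_apply i).norm continuous_const
  have hopen : ∀ m, IsOpen (U m) := fun m =>
    isOpen_iUnion fun g => isOpen_lt continuous_const (lat_cont r g)
  have hcov : {v : Fin n → ℤ_[l] | ∃ i, ‖v i‖ = 1} ⊆ ⋃ m, U m := by
    rintro v ⟨i, hi⟩
    have hv : (fun a => ((v a : ℤ_[l]) : ℚ_[l])) ≠ 0 := by
      intro h0
      have h2 := congrFun h0 i
      simp only [Pi.zero_apply] at h2
      have h3 : v i = 0 := PadicInt.ext (by simpa using h2)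
      rw [h3, norm_zero] at hi
      exact zero_ne_one hi
    obtain ⟨g, hg⟩ := irr_det hr _ hv
    have h4 : (Matrix.of fun a b => (rat r (g b)).mulVec (fun a => ((v a : ℤ_[l]) : ℚ_[l])) a) =
        (algebraMap ℤ_[l] ℚ_[l]).mapMatrix (latM r g v) := by
      ext a b
      change (((algebraMap ℤ_[l] ℚ_[l]).mapMatrix (r (g b) : Matrix (Fin n) (Fin n) ℤ_[l])).mulVec
        (fun a => ((v a : ℤ_[l]) : ℚ_[l]))) a =
        algebraMap ℤ_[l] ℚ_[l] (((r (g b) : Matrix (Fin n) (Fin n) ℤ_[l]).mulVec v) a)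
      rw [RingHom.map_mulVec]
      rfl
    rw [h4, ← RingHom.map_det] at hg
    have h5 : (latM r g v).det ≠ 0 := by
      intro h0
      rw [h0, map_zero] at hg
      exact hg rfl
    obtain ⟨m, hm⟩ := exists_pow_lt_of_lt_one (norm_pos_iff.mpr h5) hinv
    exact Set.mem_iUnion.mpr ⟨m, Set.mem_iUnion.mpr ⟨g, hm⟩⟩
  have hdir : Directed (· ⊆ ·) U := by
    apply Monotone.directed_le
    intro m m' hmm' v hv
    obtain ⟨g, hg⟩ := Set.mem_iUnion.mp hv
    exact Set.mem_iUnion.mpr ⟨g, lt_of_le_of_lt (pow_le_pow_of_le_one hinv0.le hinv.le hmm') hg⟩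
  obtain ⟨m, hm⟩ := hP.elim_directed_cover U hopen hcov hdir
  refine ⟨m, fun v hv => ?_⟩
  exact Set.mem_iUnion.mp (hm hv)

theorem lat_cancel {n : ℕ} {w X Y : Matrix (Fin n) (Fin n) ℤ_[l]} (hw : w.det ≠ 0)
    (h : w * X = w * Y) : X = Y := by
  have h1 : w.det • X = w.det • Y := by
    have h2 := congrArg (fun Z => w.adjugate * Z) h
    simp only [← Matrix.mul_assoc, Matrix.adjugate_mul, Matrix.smul_mul, Matrix.one_mul] at h2
    exact h2
  ext i j
  have h3 := congrFun (congrFun h1 i) j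
  simp only [Matrix.smul_apply, smul_eq_mul] at h3
  exact mul_left_cancel₀ hw h3

/-- the primitive integral intertwiner -/
theorem lat_prim {G : Type} [Group G] {n : ℕ} (hn : 0 < n)
    (r s : G →* Matrix.GeneralLinearGroup (Fin n) ℤ_[l]) (h : EqvQ r s) :
    ∃ w : Matrix (Fin n) (Fin n) ℤ_[l], (∃ i j, ‖w i j‖ = 1) ∧
      ∀ g, (r g : Matrix (Fin n) (Fin n) ℤ_[l]) * w = w * (s g : Matrix (Fin n) (Fin n) ℤ_[l]) := by
  obtain ⟨u, hu⟩ := h
  have : Nonempty (Fin n) := ⟨⟨0, hn⟩⟩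
  let w₀ : Matrix (Fin n) (Fin n) ℚ_[l] := ((u⁻¹ : Matrix.GeneralLinearGroup (Fin n) ℚ_[l]) :
    Matrix (Fin n) (Fin n) ℚ_[l])
  have hw₀ : ∀ g, rat r g * w₀ = w₀ * rat s g := by
    intro g
    have h1 : w₀ * (u : Matrix (Fin n) (Fin n) ℚ_[l]) = 1 := by
      rw [← Units.val_mul, inv_mul_cancel, Units.val_one]
    have h2 : (u : Matrix (Fin n) (Fin n) ℚ_[l]) * w₀ = 1 := by
      rw [← Units.val_mul, mul_inv_cancel, Units.val_one]
    calc rat r g * w₀ = (w₀ * u) * (rat r g * w₀) := by rw [h1, Matrix.one_mul]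
      _ = w₀ * (u * rat r g) * w₀ := by simp only [Matrix.mul_assoc]
      _ = w₀ * (rat s g * u) * w₀ := by rw [hu g]
      _ = w₀ * rat s g * (u * w₀) := by simp only [Matrix.mul_assoc]
      _ = w₀ * rat s g := by rw [h2, Matrix.mul_one]
  obtain ⟨⟨i, j⟩, -, hij⟩ := Finset.exists_max_image (Finset.univ : Finset (Fin n × Fin n))
    (fun q => ‖w₀ q.1 q.2‖) Finset.univ_nonempty
  have hne : w₀ i j ≠ 0 := by
    intro h0
    have h1 : w₀ = 0 := by
      ext a b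
      have h2 := hij (a, b) (Finset.mem_univ _)
      simp only [h0, norm_zero, norm_le_zero_iff] at h2
      exact h2
    have h2 : w₀ * (u : Matrix (Fin n) (Fin n) ℚ_[l]) = 1 := by
      rw [← Units.val_mul, inv_mul_cancel, Units.val_one]
    rw [h1, Matrix.zero_mul] at h2
    have h3 := congrFun (congrFun h2 i) i
    simp at h3
  have hpos : 0 < ‖w₀ i j‖ := norm_pos_iff.mpr hne
  have hle : ∀ a b, ‖(w₀ i j)⁻¹ * w₀ a b‖ ≤ 1 := by
    intro a b
    rw [norm_mul, norm_inv, inv_mul_le_iff₀ hpos, mul_one]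
    exact hij (a, b) (Finset.mem_univ _)
  let w : Matrix (Fin n) (Fin n) ℤ_[l] := Matrix.of fun a b => ⟨(w₀ i j)⁻¹ * w₀ a b, hle a b⟩
  have hw : (algebraMap ℤ_[l] ℚ_[l]).mapMatrix w = (w₀ i j)⁻¹ • w₀ := by
    ext a b
    rfl
  have hinj : Function.Injective ((algebraMap ℤ_[l] ℚ_[l]).mapMatrix (m := Fin n)) := by
    intro X Y hXY
    ext a b
    exact (IsFractionRing.injective ℤ_[l] ℚ_[l]) (congrFun (congrFun hXY a) b)
  refine ⟨w, ⟨i, j, ?_⟩, ?_⟩
  · change ‖(w₀ i j)⁻¹ * w₀ i j‖ = 1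
    rw [inv_mul_cancel₀ hne, norm_one]
  · intro g
    apply hinj
    rw [map_mul, map_mul, hw, ← lat_rat_apply, ← lat_rat_apply, Matrix.mul_smul, Matrix.smul_mul,
      hw₀ g]

theorem st_LAT : ST_LAT := by
  intro G _ n l _ r hr
  classical
  rcases Nat.eq_zero_or_pos n with hn | hn
  · subst hn
    refine ⟨{r}, Set.finite_singleton r, fun s _ => ⟨r, rfl, 1, fun g => ?_⟩⟩
    apply Units.ext
    exact Subsingleton.elim _ _
  obtain ⟨m, hm⟩ := lat_bound r hr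
  -- the data attached to `s`
  let P : (G →* Matrix.GeneralLinearGroup (Fin n) ℤ_[l]) → Matrix (Fin n) (Fin n) ℤ_[l] → Prop :=
    fun s w => (∃ c, w * c = ((l : ℤ_[l]) ^ m) • (1 : Matrix (Fin n) (Fin n) ℤ_[l])) ∧
      ∀ g, (r g : Matrix (Fin n) (Fin n) ℤ_[l]) * w = w * (s g : Matrix (Fin n) (Fin n) ℤ_[l])
  have hl0 : (l : ℤ_[l]) ≠ 0 := by
    exact_mod_cast (Fact.out : l.Prime).ne_zero
  have hPdet : ∀ s w, P s w → w.det ≠ 0 := by
    rintro s w ⟨⟨c, hc⟩, -⟩ h0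
    have h1 := congrArg Matrix.det hc
    rw [Matrix.det_mul, h0, zero_mul, Matrix.det_smul, Matrix.det_one, mul_one] at h1
    exact (pow_ne_zero _ (pow_ne_zero _ hl0)) h1.symm
  have hP : ∀ s, EqvQ r s → ∃ w, P s w := by
    intro s hs
    obtain ⟨w, ⟨i, j, hij⟩, hw⟩ := lat_prim hn r s hs
    refine ⟨w, ?_, hw⟩
    obtain ⟨g, hg⟩ := hm (fun a => w a j) ⟨i, hij⟩
    let N : Matrix (Fin n) (Fin n) ℤ_[l] := Matrix.of fun a b =>
      (s (g b) : Matrix (Fin n) (Fin n) ℤ_[l]) a j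
    have h1 : latM r g (fun a => w a j) = w * N := by
      ext a b
      have h2 := congrFun (congrFun (hw (g b)) a) j
      exact h2
    have h3 : (latM r g (fun a => w a j)).det ≠ 0 := by
      intro h0
      rw [h0, norm_zero] at hg
      have hl1 : (0 : ℝ) < l := by exact_mod_cast (Fact.out : l.Prime).pos
      exact absurd hg (not_lt.mpr (by positivity))
    have h4 : ‖((l : ℤ_[l]) ^ m)‖ ≤ ‖(latM r g (fun a => w a j)).det‖ := by
      rw [norm_pow, PadicInt.norm_p]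
      exact hg.le
    obtain ⟨z, hz⟩ := lat_dvd h3 h4
    refine ⟨z • (N * (w * N).adjugate), ?_⟩
    rw [Matrix.mul_smul, ← Matrix.mul_assoc, Matrix.mul_adjugate, smul_smul, hz, h1, mul_comm]
  have hkey : ∀ s s' w w', P s w → P s' w' →
      (PadicInt.toZModPow m).mapMatrix w = (PadicInt.toZModPow m).mapMatrix w' → EqvZ s' s := by
    intro s s' w w' h h' heq
    have hd := hPdet s w h
    obtain ⟨⟨c, hc⟩, hw⟩ := h
    obtain ⟨⟨c', hc'⟩, hw'⟩ := h'
    have h1 : ∀ a b, ∃ z : ℤ_[l], w' a b = w a b + (l : ℤ_[l]) ^ m * z := by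
      intro a b
      have h2 : w' a b - w a b ∈ RingHom.ker (PadicInt.toZModPow (p := l) m) := by
        rw [RingHom.mem_ker, map_sub, sub_eq_zero]
        exact (congrFun (congrFun heq a) b).symm
      rw [PadicInt.ker_toZModPow, Ideal.mem_span_singleton'] at h2
      obtain ⟨z, hz⟩ := h2
      exact ⟨z, by rw [mul_comm, hz]; ring⟩
    choose z hz using h1
    have h2 : w' = w + ((l : ℤ_[l]) ^ m) • (Matrix.of z : Matrix (Fin n) (Fin n) ℤ_[l]) := by
      ext a b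
      rw [hz a b]
      rfl
    have h3 : w' = w * (1 + c * Matrix.of z) := by
      rw [h2, Matrix.mul_add, Matrix.mul_one, ← Matrix.mul_assoc, hc, Matrix.smul_mul,
        Matrix.one_mul]
    have h4 : w = w' * (1 - c' * Matrix.of z) := by
      rw [Matrix.mul_sub, Matrix.mul_one, ← Matrix.mul_assoc, hc', Matrix.smul_mul,
        Matrix.one_mul, h2, add_sub_cancel_right]
    have h5 : (1 + c * Matrix.of z) * (1 - c' * Matrix.of z) =
        (1 : Matrix (Fin n) (Fin n) ℤ_[l]) := by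
      apply lat_cancel hd
      rw [← Matrix.mul_assoc, ← h3, ← h4, Matrix.mul_one]
    have h6 : (1 - c' * Matrix.of z) * (1 + c * Matrix.of z) =
        (1 : Matrix (Fin n) (Fin n) ℤ_[l]) := mul_eq_one_comm.mp h5
    refine ⟨⟨1 + c * Matrix.of z, 1 - c' * Matrix.of z, h5, h6⟩, fun g => ?_⟩
    apply Units.ext
    apply lat_cancel hd
    change w * ((1 + c * Matrix.of z) * (s' g : Matrix (Fin n) (Fin n) ℤ_[l])) =
      w * ((s g : Matrix (Fin n) (Fin n) ℤ_[l]) * (1 + c * Matrix.of z))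
    rw [← Matrix.mul_assoc, ← h3, ← hw' g, ← Matrix.mul_assoc, ← hw g, Matrix.mul_assoc, ← h3]
  choose! W hW using hP
  let f : (G →* Matrix.GeneralLinearGroup (Fin n) ℤ_[l]) → Matrix (Fin n) (Fin n) (ZMod (l ^ m)) :=
    fun s => (PadicInt.toZModPow m).mapMatrix (W s)
  have : NeZero (l ^ m) := ⟨pow_ne_zero _ (Fact.out : l.Prime).ne_zero⟩
  have : Finite (Matrix (Fin n) (Fin n) (ZMod (l ^ m))) :=
    inferInstanceAs (Finite (Fin n → Fin n → ZMod (l ^ m)))
  refine ⟨Set.range fun y : Matrix (Fin n) (Fin n) (ZMod (l ^ m)) =>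
    if h : ∃ s, EqvQ r s ∧ f s = y then h.choose else r, Set.finite_range _, ?_⟩
  intro s hs
  have hex : ∃ s', EqvQ r s' ∧ f s' = f s := ⟨s, hs, rfl⟩
  refine ⟨hex.choose, ⟨f s, dif_pos hex⟩, ?_⟩
  exact hkey hex.choose s (W hex.choose) (W s) (hW _ hex.choose_spec.1) (hW _ hs)
    hex.choose_spec.2

end LAT

end MU
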